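import Pool.Agent.Y802.TS.Stm

/-!
# Divisibility of powers of matrices over discrete valuation rings (job TS-VAL)
-/

set_option autoImplicit false

open Matrix IsLocalRing Polynomial

namespace Pool.Agent.Y487.TS

/-- the homogenised equation of a matrix -/
theorem pow_eq {O K : Type} [CommRing O] [Field K] [Algebra O K] {n : ℕ}
    (B : Matrix (Fin n) (Fin n) O) (ϖ : O) (hϖ : algebraMap O K ϖ ≠ 0) (t : ℕ)
    (C : Matrix (Fin n) (Fin n) K) (hC : B.map (algebraMap O K) = algebraMap O K ϖ ^ t • C)
    (g : O[X]) (hg : g.Monic) (h : aeval C (g.map (algebraMap O K)) = 0)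
    (hinj : Function.Injective (algebraMap O K)) :
    B ^ g.natDegree = -∑ i ∈ Finset.range g.natDegree,
      (g.coeff i * ϖ ^ (t * (g.natDegree - i))) • B ^ i := by
  have hnd : (g.map (algebraMap O K)).natDegree = g.natDegree := hg.natDegree_map _
  rw [aeval_eq_sum_range, hnd, Finset.sum_range_succ, coeff_map, coeff_natDegree,
    hg.leadingCoeff, map_one, one_smul] at h
  have hpow : ∀ i, (B ^ i).map (algebraMap O K) = algebraMap O K ϖ ^ (t * i) • C ^ i := by
    intro i
    have h1 : (B ^ i).map (algebraMap O K) = (B.map (algebraMap O K)) ^ i :=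
      map_pow (algebraMap O K).mapMatrix B i
    rw [h1, hC, _root_.smul_pow, ← pow_mul]
  have h2 : C ^ g.natDegree = -∑ i ∈ Finset.range g.natDegree,
      (g.map (algebraMap O K)).coeff i • C ^ i := by
    rw [eq_neg_iff_add_eq_zero, add_comm]
    exact h
  apply Matrix.map_injective hinj
  have h3 : (-∑ i ∈ Finset.range g.natDegree,
      (g.coeff i * ϖ ^ (t * (g.natDegree - i))) • B ^ i).map (algebraMap O K) =
      -∑ i ∈ Finset.range g.natDegree,
        (algebraMap O K (g.coeff i * ϖ ^ (t * (g.natDegree - i)))) •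
          (B ^ i).map (algebraMap O K) := by
    have h4 := map_neg (algebraMap O K).mapMatrix (∑ i ∈ Finset.range g.natDegree,
      (g.coeff i * ϖ ^ (t * (g.natDegree - i))) • B ^ i)
    have h5 := map_sum (algebraMap O K).mapMatrix (fun i =>
      (g.coeff i * ϖ ^ (t * (g.natDegree - i))) • B ^ i) (Finset.range g.natDegree)
    refine h4.trans ?_
    rw [h5]
    congr 1
    refine Finset.sum_congr rfl fun i _ => ?_
    ext a b
    simp [RingHom.mapMatrix_apply]
  refine Eq.trans ?_ h3.symm
  change (B ^ g.natDegree).map (algebraMap O K) = _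
  rw [hpow, h2, smul_neg, Finset.smul_sum]
  congr 1
  refine Finset.sum_congr rfl fun i hi => ?_
  rw [Finset.mem_range] at hi
  rw [hpow, smul_smul, smul_smul, coeff_map, map_mul, map_pow]
  congr 1
  have h6 : t * g.natDegree = t * (g.natDegree - i) + t * i := by
    rw [← mul_add]
    congr 1
    omega
  rw [h6, pow_add]
  ring

theorem t_VAL : Pool.Agent.Y802.TS.S_VAL := by
  intro O _ _ _ n B t P hP hB
  obtain ⟨ϖ, hϖ⟩ := IsDiscreteValuationRing.exists_irreducible O
  have hmax := hϖ.maximalIdeal_eq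
  have hmem : ∀ (k : ℕ) (x : O), x ∈ maximalIdeal O ^ k ↔ ϖ ^ k ∣ x := by
    intro k x
    rw [hmax, Ideal.span_singleton_pow, Ideal.mem_span_singleton]
  let K := FractionRing O
  have hinj : Function.Injective (algebraMap O K) := IsFractionRing.injective O K
  have hϖ0 : algebraMap O K ϖ ≠ 0 := by
    intro h
    exact hϖ.ne_zero (hinj (by rw [h, map_zero]))
  choose Z hZ using fun a b => (hmem _ _).1 (hB a b)
  have hZ' : B ^ P = ϖ ^ (t * P) • (Matrix.of Z) := by
    ext a b
    rw [hZ a b]
    rfl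
  set C : Matrix (Fin n) (Fin n) K := (algebraMap O K ϖ ^ t)⁻¹ • B.map (algebraMap O K) with hC
  have hCB : B.map (algebraMap O K) = algebraMap O K ϖ ^ t • C := by
    rw [hC, smul_smul, mul_inv_cancel₀ (pow_ne_zero t hϖ0), one_smul]
  have hCP : C ^ P = (Matrix.of Z).map (algebraMap O K) := by
    have h1 : (B.map (algebraMap O K)) ^ P = (B ^ P).map (algebraMap O K) :=
      (map_pow (algebraMap O K).mapMatrix B P).symm
    rw [hC, _root_.smul_pow, h1, hZ']
    ext a b
    simp only [Matrix.smul_apply, Matrix.map_apply, smul_eq_mul, map_mul, map_pow]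
    rw [inv_pow, ← pow_mul, ← mul_assoc, inv_mul_cancel₀ (pow_ne_zero _ hϖ0), one_mul]
  -- the integral equation
  have hf : ((Matrix.of Z).charpoly.comp (X ^ P)).Monic :=
    (Matrix.charpoly_monic _).comp (monic_X_pow P) (by rw [natDegree_X_pow]; omega)
  have hfC : aeval C (((Matrix.of Z).charpoly.comp (X ^ P)).map (algebraMap O K)) = 0 := by
    rw [Polynomial.map_comp, Polynomial.map_pow, map_X, ← Matrix.charpoly_map, aeval_comp,
      map_pow, aeval_X, hCP]
    exact Matrix.aeval_self_charpoly _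
  have hint : IsIntegral K C := ⟨C.charpoly, C.charpoly_monic, C.aeval_self_charpoly⟩
  obtain ⟨g, hg⟩ := IsIntegrallyClosed.eq_map_mul_C_of_dvd K hf (minpoly.dvd K C hfC)
  rw [(minpoly.monic hint).leadingCoeff, C_1, mul_one] at hg
  have hgm : g.Monic := by
    refine Polynomial.monic_of_injective hinj ?_
    rw [hg]
    exact minpoly.monic hint
  have hdeg : g.natDegree ≤ n := by
    have h1 : (g.map (algebraMap O K)).natDegree = g.natDegree := hgm.natDegree_map _
    rw [← h1, hg]
    have h2 := natDegree_le_of_dvd (Matrix.minpoly_dvd_charpoly C) C.charpoly_monic.ne_zero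
    rwa [Matrix.charpoly_natDegree_eq_dim, Fintype.card_fin] at h2
  have hBd := pow_eq B ϖ hϖ0 t C hCB g hgm (by rw [hg]; exact minpoly.aeval K C) hinj
  have hd : ∀ a b, (B ^ g.natDegree) a b ∈ maximalIdeal O ^ t := by
    intro a b
    rw [hBd, Matrix.neg_apply, Matrix.sum_apply]
    refine Ideal.neg_mem_iff _ |>.2 (Ideal.sum_mem _ fun i hi => ?_)
    rw [Finset.mem_range] at hi
    rw [Matrix.smul_apply, smul_eq_mul, hmem, mul_assoc]
    refine Dvd.dvd.mul_left (Dvd.dvd.mul_right (pow_dvd_pow ϖ ?_) _) _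
    exact Nat.le_mul_of_pos_right t (by omega)
  intro a b
  have h1 : B ^ n = B ^ (n - g.natDegree) * B ^ g.natDegree := by
    rw [← pow_add]
    congr 1
    omega
  rw [h1, Matrix.mul_apply]
  exact Ideal.sum_mem _ fun c _ => Ideal.mul_mem_left _ _ (hd c b)

end Pool.Agent.Y487.TS
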